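import Pool.Agent.helper32.PN.Spec

/-!
# Project PN (MP_405bd9_al), row GRP: the number of negative fixed coordinates
-/

set_option autoImplicit false

namespace Pool.Agent.PN

open Module Polynomial Pool.Agent.helper27.PC

theorem GRP_block {n : ℕ} (w : Equiv.Perm (Fin n × Bool)) (L : List (ℕ × Bool)) :
    ∀ k, (∀ b ∈ L, 1 ≤ b.1) → k + (L.map Prod.fst).sum ≤ n → CLS_B w k L →
    (Finset.univ.filter fun i : Fin n =>
      (k ≤ i.val ∧ i.val < k + (L.map Prod.fst).sum) ∧ w (i, true) = (i, false)).card =
      L.count (1, false) := by
  induction L with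
  | nil =>
    intro k _ _ _
    rw [List.count_nil, Finset.card_eq_zero, Finset.filter_eq_empty_iff]
    intro i _ h
    have h1 := h.1.1
    have h2 := h.1.2
    rw [List.map_nil, List.sum_nil] at h2
    omega
  | cons b l ih =>
    intro k hb hk hC
    obtain ⟨h1, h2, h3⟩ := hC
    rw [List.map_cons, List.sum_cons] at hk ⊢
    have hb1 : 1 ≤ b.1 := hb b (by simp)
    have i1 := ih (k + b.1) (fun c hc => hb c (by simp [hc])) (by omega) h3
    have hkn : k < n := by omega
    have e : (Finset.univ.filter fun i : Fin n =>
          (k ≤ i.val ∧ i.val < k + (b.1 + (l.map Prod.fst).sum)) ∧ w (i, true) = (i, false)) =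
        (if b = (1, false) then {(⟨k, hkn⟩ : Fin n)} else ∅) ∪
          (Finset.univ.filter fun i : Fin n =>
            (k + b.1 ≤ i.val ∧ i.val < k + b.1 + (l.map Prod.fst).sum) ∧
              w (i, true) = (i, false)) := by
      ext i
      rw [Finset.mem_union, Finset.mem_filter, Finset.mem_filter]
      constructor
      · rintro ⟨-, ⟨a1, a2⟩, a3⟩
        by_cases c1 : k + b.1 ≤ i.val
        · exact Or.inr ⟨Finset.mem_univ _, ⟨c1, by omega⟩, a3⟩
        · left
          by_cases c2 : i.val + 1 < k + b.1
          · have := (h1 (i, true) a1 c2).1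
            rw [a3] at this
            simp at this
          · obtain ⟨d1, d2⟩ := h2 (i, true) a1 (show i.val + 1 = k + b.1 by omega)
            rw [a3] at d1 d2
            have d1' : i.val = k := d1
            have hb2 : b.2 = false := by
              cases hb' : b.2
              · rfl
              · rw [hb'] at d2
                simp at d2
            have hb3 : b = (1, false) := Prod.ext (show b.1 = 1 by omega) hb2
            rw [if_pos hb3, Finset.mem_singleton]
            exact Fin.ext d1'
      · rintro (h | ⟨-, ⟨a1, a2⟩, a3⟩)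
        · by_cases c1 : b = (1, false)
          · rw [if_pos c1, Finset.mem_singleton] at h
            have hi : i.val = k := by rw [h]
            have hb2 : b.1 = 1 := by rw [c1]
            have hb3 : b.2 = false := by rw [c1]
            obtain ⟨d1, d2⟩ := h2 (i, true) (show k ≤ i.val by omega)
              (show i.val + 1 = k + b.1 by omega)
            refine ⟨Finset.mem_univ _, ⟨by omega, by omega⟩, ?_⟩
            refine Prod.ext (Fin.ext ?_) ?_
            · rw [d1]
              exact hi.symm
            · rw [d2, hb3]
              simp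
          · rw [if_neg c1] at h
            simp at h
        · exact ⟨Finset.mem_univ _, ⟨by omega, by omega⟩, a3⟩
    rw [e, Finset.card_union_of_disjoint, i1, List.count_cons]
    · by_cases c1 : b = (1, false)
      · rw [if_pos c1, c1]
        simp [add_comm]
      · rw [if_neg c1, Finset.card_empty]
        have : (b == (1, false)) = false := by simpa using c1
        rw [this]
        simp
    · rw [Finset.disjoint_left]
      intro i h4 h5
      by_cases c1 : b = (1, false)
      · rw [if_pos c1, Finset.mem_singleton] at h4
        rw [Finset.mem_filter] at h5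
        have hi : i.val = k := by rw [h4]
        have := h5.2.1.1
        omega
      · rw [if_neg c1] at h4
        simp at h4

theorem GRP_std (n : ℕ) (β α : List ℕ) (h : Typ n β α) :
    (Finset.univ.filter fun i : Fin n =>
      ((std2 n β α : W n) : Equiv.Perm (Fin n × Bool)) (i, true) = (i, false)).card = β.count 1 := by
  have h1 := CLS_std2 β α h
  obtain ⟨t1, -, t3, t4⟩ := h
  have hf : ∀ (l : List ℕ) (s : Bool), (l.map fun a => (a, s)).map Prod.fst = l := by
    intro l s
    rw [List.map_map]
    simp [Function.comp_def]
  have hs : (((β.map (fun a => (a, false))) ++ (α.map (fun a => (a, true)))).map Prod.fst).sum =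
      n := by
    rw [List.map_append, hf, hf, List.sum_append, t4]
  have h2 := GRP_block ((std2 n β α : W n) : Equiv.Perm (Fin n × Bool))
    ((β.map (fun a => (a, false))) ++ (α.map (fun a => (a, true)))) 0 (by
      intro b hb
      rw [List.mem_append, List.mem_map, List.mem_map] at hb
      rcases hb with ⟨a, ha, rfl⟩ | ⟨a, ha, rfl⟩
      · exact t1 a ha
      · exact t3 a ha) (by rw [hs]; omega) h1
  rw [hs] at h2
  have h3 : ((β.map (fun a => (a, false))) ++ (α.map (fun a => (a, true)))).count (1, false) =
      β.count 1 := by
    rw [List.count_append]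
    have e1 : (β.map (fun a => (a, false))).count (1, false) = β.count 1 :=
      List.count_map_of_injective β (fun a : ℕ => (a, false))
        (fun a b hab => (Prod.ext_iff.1 hab).1) 1
    have e2 : (α.map (fun a => (a, true))).count (1, false) = 0 := by
      rw [List.count_eq_zero]
      intro hm
      rw [List.mem_map] at hm
      obtain ⟨a, -, ha⟩ := hm
      have := (Prod.ext_iff.1 ha).2
      simp at this
    rw [e1, e2, Nat.add_zero]
  rw [← h3, ← h2]
  refine congrArg Finset.card (Finset.filter_congr ?_)
  intro i _
  constructor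
  · intro h
    exact ⟨⟨Nat.zero_le _, by have := i.isLt; omega⟩, h⟩
  · intro h
    exact h.2

theorem GRP_le {n : ℕ} (w w' c : W n) (h : c * w * c⁻¹ = w') :
    (Finset.univ.filter fun i : Fin n =>
      (w : Equiv.Perm (Fin n × Bool)) (i, true) = (i, false)).card ≤
    (Finset.univ.filter fun i : Fin n =>
      (w' : Equiv.Perm (Fin n × Bool)) (i, true) = (i, false)).card := by
  have hc := mem_W.1 c.2
  have hw' := mem_W.1 w'.2
  have key : ∀ x, (w' : Equiv.Perm (Fin n × Bool)) ((c : Equiv.Perm (Fin n × Bool)) x) =
      (c : Equiv.Perm (Fin n × Bool)) ((w : Equiv.Perm (Fin n × Bool)) x) := by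
    intro x
    have e : w' * c = c * w := by rw [← h]; group
    have := congrArg (fun t : W n => (t : Equiv.Perm (Fin n × Bool)) x) e
    exact this
  refine Finset.card_le_card_of_injOn
    (fun i => ((c : Equiv.Perm (Fin n × Bool)) (i, true)).1) ?_ ?_
  · intro i hi
    have hi' : (w : Equiv.Perm (Fin n × Bool)) (i, true) = (i, false) :=
      (Finset.mem_filter.1 (Finset.mem_coe.1 hi)).2
    refine Finset.mem_coe.2 (Finset.mem_filter.2 ⟨Finset.mem_univ _, ?_⟩)
    have k1 := key (i, true)
    rw [hi'] at k1
    have k2 := hc (i, true)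
    simp only [Bool.not_true] at k2
    rw [k2] at k1
    set y := (c : Equiv.Perm (Fin n × Bool)) (i, true) with hy
    cases hy2 : y.2 with
    | true =>
      have e1 : y = (y.1, true) := Prod.ext rfl hy2
      rw [hy2, Bool.not_true] at k1
      calc (w' : Equiv.Perm (Fin n × Bool)) (y.1, true) = (w' : Equiv.Perm (Fin n × Bool)) y := by
            rw [← e1]
        _ = (y.1, false) := k1
    | false =>
      have e1 : (y.1, true) = (y.1, !y.2) := by rw [hy2]; rfl
      have k3 := hw' y
      rw [k1] at k3
      calc (w' : Equiv.Perm (Fin n × Bool)) (y.1, true)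
          = (w' : Equiv.Perm (Fin n × Bool)) (y.1, !y.2) := by rw [e1]
        _ = (y.1, !(!y.2)) := k3
        _ = (y.1, false) := by rw [hy2]; rfl
  · intro i _ j _ hij
    have hij' : ((c : Equiv.Perm (Fin n × Bool)) (i, true)).1 =
      ((c : Equiv.Perm (Fin n × Bool)) (j, true)).1 := hij
    by_cases h2 : ((c : Equiv.Perm (Fin n × Bool)) (i, true)).2 =
        ((c : Equiv.Perm (Fin n × Bool)) (j, true)).2
    · have := (c : Equiv.Perm (Fin n × Bool)).injective (Prod.ext hij' h2)
      exact (Prod.ext_iff.1 this).1
    · have k2 := hc (j, true)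
      have h3 : ((c : Equiv.Perm (Fin n × Bool)) (i, true)).2 =
          !((c : Equiv.Perm (Fin n × Bool)) (j, true)).2 := by
        revert h2
        cases ((c : Equiv.Perm (Fin n × Bool)) (i, true)).2 <;>
          cases ((c : Equiv.Perm (Fin n × Bool)) (j, true)).2 <;> simp
      have h4 : (c : Equiv.Perm (Fin n × Bool)) (i, true) =
          (c : Equiv.Perm (Fin n × Bool)) (j, false) := by
        have k3 : (c : Equiv.Perm (Fin n × Bool)) (j, false) =
          (((c : Equiv.Perm (Fin n × Bool)) (j, true)).1,
            !((c : Equiv.Perm (Fin n × Bool)) (j, true)).2) := k2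
        rw [k3]
        exact Prod.ext hij' h3
      have := (c : Equiv.Perm (Fin n × Bool)).injective h4
      exact (Prod.ext_iff.1 this).1

theorem GRP : GRP_stmt := by
  intro n w β α hT hc
  rw [← GRP_std n β α hT]
  obtain ⟨c, hc'⟩ := isConj_iff.1 hc
  refine le_antisymm (GRP_le w _ c hc') (GRP_le _ w c⁻¹ ?_)
  rw [← hc']
  group

end Pool.Agent.PN
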